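import Mathlib
import Pool.Agent.Helper149.TFDW

set_option autoImplicit false

open MeasureTheory Filter Topology Set
open scoped ENNReal NNReal ContDiff

namespace Pool.Agent.Results.MP_a69704_mp.NotConvex

/-- Three dimensional Euclidean space. -/
abbrev R3 := EuclideanSpace ℝ (Fin 3)

/-- `ρ` is an admissible density and `g` is the weak gradient of `ψ = ρ^{1/2}`:
`ρ ≥ 0`, `ψ ∈ L⁶`, `ρ ∈ L^p` and `g = ∇ψ ∈ L²` in the sense of distributions. -/
structure Admissible (p : ℝ) (ρ : R3 → ℝ) (g : R3 → R3) : Prop where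
  nonneg : ∀ x, 0 ≤ ρ x
  sqrt_memLp : MemLp (fun x => √(ρ x)) 6
  integrable_rpow : Integrable (fun x => ρ x ^ p)
  grad_memLp : MemLp g 2
  grad_weak : ∀ φ : R3 → ℝ, ContDiff ℝ ∞ φ → HasCompactSupport φ → ∀ v : R3,
    ∫ x, √(ρ x) * fderiv ℝ φ x v = -∫ x, inner ℝ (g x) v * φ x

/-- `J(ρ) = (γ/p) ρ^p - (3 C_e/4) ρ^{4/3}`. -/
noncomputable def J (γ Ce p : ℝ) (ρ : ℝ) : ℝ :=
  γ / p * ρ ^ p - 3 * Ce / 4 * ρ ^ ((4 : ℝ) / 3)

/-- The TFDW functional `𝓔(ρ)`; the argument `g` is the weak gradient of `ρ^{1/2}`. -/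
noncomputable def energy (A γ Ce p : ℝ) {k : ℕ} (z : Fin k → ℝ) (R : Fin k → R3)
    (ρ : R3 → ℝ) (g : R3 → R3) : ℝ :=
  A * (∫ x, ‖g x‖ ^ 2) + (∫ x, J γ Ce p (ρ x))
    - (∫ x, (∑ j, z j / ‖x - R j‖) * ρ x)
    + 1 / 2 * (∫ x, ∫ y, ρ x * ρ y / ‖x - y‖)
    + ∑ i, ∑ j, (if i < j then z i * z j / ‖R i - R j‖ else 0)

/-- The set of energies `𝓔(ρ)` of the admissible `ρ` with `∫ ρ = lam`. -/
def energySet (A γ Ce p : ℝ) {k : ℕ} (z : Fin k → ℝ) (R : Fin k → R3) (lam : ℝ) : Set ℝ :=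
  {e | ∃ (ρ : R3 → ℝ) (g : R3 → R3), Admissible p ρ g ∧ Integrable ρ ∧ ∫ x, ρ x = lam ∧
    e = energy A γ Ce p z R ρ g}

/-- `E(lam)`, the infimum of `𝓔(ρ)` over admissible `ρ` with `∫ ρ = lam`. -/
noncomputable def E (A γ Ce p : ℝ) {k : ℕ} (z : Fin k → ℝ) (R : Fin k → R3) (lam : ℝ) : ℝ :=
  sInf (energySet A γ Ce p z R lam)

/-! ### Smooth trial functions -/

/-- gradient vector of a real function -/
noncomputable def grad (ψ : R3 → ℝ) (x : R3) : R3 :=
  (InnerProductSpace.toDual ℝ R3).symm (fderiv ℝ ψ x)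

lemma norm_grad (ψ : R3 → ℝ) (x : R3) : ‖grad ψ x‖ = ‖fderiv ℝ ψ x‖ := by
  unfold grad; simp

lemma inner_grad (ψ : R3 → ℝ) (x v : R3) : inner ℝ (grad ψ x) v = fderiv ℝ ψ x v := by
  unfold grad
  exact InnerProductSpace.toDual_symm_apply

lemma trial_admissible {p : ℝ} (hp : 4 / 3 < p) {ψ : R3 → ℝ} (hψ : ContDiff ℝ ∞ ψ)
    (hs : HasCompactSupport ψ) (h0 : ∀ x, 0 ≤ ψ x) :
    Admissible p (fun x => ψ x ^ 2) (grad ψ) ∧ Integrable (fun x => ψ x ^ 2) := by
  have hsq : ∀ x, √(ψ x ^ 2) = ψ x := fun x => Real.sqrt_sq (h0 x)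
  have hs2 : HasCompactSupport (fun x => ψ x ^ 2) := by
    have h1 : HasCompactSupport (fun x => ψ x * ψ x) := hs.mul_left
    simpa only [pow_two] using h1
  have hint2 : Integrable (fun x => ψ x ^ 2) :=
    (hψ.continuous.pow 2).integrable_of_hasCompactSupport hs2
  have hgc : Continuous (grad ψ) := by
    have h1 : Continuous (fun L : StrongDual ℝ R3 => (InnerProductSpace.toDual ℝ R3).symm L) :=
      LinearIsometryEquiv.continuous _
    have h2 : Continuous (fderiv ℝ ψ) := hψ.continuous_fderiv (by simp)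
    exact h1.comp h2
  have hgs : HasCompactSupport (grad ψ) := by
    have h1 : HasCompactSupport (fun x => (InnerProductSpace.toDual ℝ R3).symm (fderiv ℝ ψ x)) :=
      (hs.fderiv ℝ).comp_left (g := fun L : StrongDual ℝ R3 =>
        (InnerProductSpace.toDual ℝ R3).symm L) (map_zero _)
    exact h1
  refine ⟨⟨fun x => by positivity, ?_, ?_, ?_, ?_⟩, hint2⟩
  · simp only [hsq]
    exact hψ.continuous.memLp_of_hasCompactSupport hs
  · refine Continuous.integrable_of_hasCompactSupport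
      ((hψ.continuous.pow 2).rpow_const fun x => Or.inr (by linarith)) ?_
    refine hs.comp_left (g := fun t : ℝ => (t ^ 2) ^ p) ?_
    rw [zero_pow two_ne_zero, Real.zero_rpow (by linarith)]
  · exact hgc.memLp_of_hasCompactSupport hgs
  · intro φ hφ hφs v
    simp only [hsq, inner_grad]
    have hc1 : Continuous fun x => fderiv ℝ ψ x v :=
      (hψ.continuous_fderiv (by simp)).clm_apply continuous_const
    have hc2 : Continuous fun x => fderiv ℝ φ x v :=
      (hφ.continuous_fderiv (by simp)).clm_apply continuous_const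
    refine integral_mul_fderiv_eq_neg_fderiv_mul_of_integrable ?_ ?_ ?_ ?_ ?_
    · exact (hc1.mul hφ.continuous).integrable_of_hasCompactSupport hφs.mul_left
    · exact (hψ.continuous.mul hc2).integrable_of_hasCompactSupport hs.mul_right
    · exact (hψ.continuous.mul hφ.continuous).integrable_of_hasCompactSupport hs.mul_right
    · intro x _; exact (hψ.differentiable (by simp)) x
    · intro x _; exact (hφ.differentiable (by simp)) x

/-- A fixed smooth bump. -/
lemma exists_bump : ∃ b : R3 → ℝ, ContDiff ℝ ∞ b ∧ HasCompactSupport b ∧ (∀ x, 0 ≤ b x) ∧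
    b 0 = 1 := by
  let b : ContDiffBump (0 : R3) := ⟨1, 2, one_pos, one_lt_two⟩
  exact ⟨b, b.contDiff, b.hasCompactSupport, fun x => b.nonneg,
    b.one_of_mem_closedBall (by simp [b.rIn_pos.le])⟩

lemma integral_scale (s : ℝ) (hs : 0 < s) (F : R3 → ℝ) :
    ∫ x, F (s • x) = (s ^ 3)⁻¹ * ∫ x, F x := by
  have := Measure.integral_comp_smul (volume : Measure R3) F s
  rw [this, finrank_euclideanSpace_fin, abs_of_pos (by positivity), smul_eq_mul]

/-- There is a trial function with negative energy when `V = 0`. -/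
lemma exists_trial {A γ Ce p : ℝ} (hCe : 0 < Ce) (hp : 4 / 3 < p) :
    ∃ ψ : R3 → ℝ, ContDiff ℝ ∞ ψ ∧ HasCompactSupport ψ ∧ (∀ x, 0 ≤ ψ x) ∧
      0 < ∫ x, ψ x ^ 2 ∧
      A * (∫ x, ‖grad ψ x‖ ^ 2) + (∫ x, J γ Ce p (ψ x ^ 2))
        + 1 / 2 * (∫ x, ∫ y, ψ x ^ 2 * ψ y ^ 2 / ‖x - y‖) < 0 := by
  obtain ⟨b, hb, hbs, hb0, hb1⟩ := exists_bump
  set T := ∫ x, ‖fderiv ℝ b x‖ ^ 2 with hT
  set P := ∫ x, (b x ^ 2) ^ p with hP
  set Q := ∫ x, (b x ^ 2) ^ ((4:ℝ)/3) with hQ
  set D := ∫ x, ∫ y, b x ^ 2 * b y ^ 2 / ‖x - y‖ with hD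
  have hpos : ∀ q : ℝ, 0 < q → 0 < ∫ x, (b x ^ 2) ^ q := by
    intro q hq
    refine Continuous.integral_pos_of_hasCompactSupport_nonneg_nonzero (x := 0)
      ((hb.continuous.pow 2).rpow_const fun x => Or.inr hq.le) ?_ (fun x => by positivity) ?_
    · refine hbs.comp_left (g := fun t : ℝ => (t ^ 2) ^ q) ?_
      rw [zero_pow two_ne_zero, Real.zero_rpow hq.ne']
    · rw [hb1]; simp
  have hQ0 : 0 < Q := hpos _ (by norm_num)
  -- choice of the scale
  have hlim : Tendsto (fun s : ℝ => (A * T + 1 / 2 * D) * s ^ ((2:ℝ)/3)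
      + γ / p * P * s ^ (4 * p - 16 / 3) - 3 * Ce / 4 * Q) (𝓝[>] 0)
      (𝓝 (-(3 * Ce / 4 * Q))) := by
    have h1 : Tendsto (fun s : ℝ => s ^ ((2:ℝ)/3)) (𝓝 0) (𝓝 0) := by
      have := (Real.continuous_rpow_const (by norm_num : (0:ℝ) ≤ 2/3)).tendsto 0
      rwa [Real.zero_rpow (by norm_num)] at this
    have h2 : Tendsto (fun s : ℝ => s ^ (4 * p - 16 / 3)) (𝓝 0) (𝓝 0) := by
      have := (Real.continuous_rpow_const (by linarith : (0:ℝ) ≤ 4 * p - 16/3)).tendsto 0
      rwa [Real.zero_rpow (by linarith)] at this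
    have h3 := ((h1.const_mul (A * T + 1 / 2 * D)).add (h2.const_mul (γ / p * P))).sub_const
      (3 * Ce / 4 * Q)
    simp only [mul_zero, add_zero, zero_sub] at h3
    exact h3.mono_left nhdsWithin_le_nhds
  have hneg : -(3 * Ce / 4 * Q) < 0 := by
    have : 0 < 3 * Ce / 4 * Q := by positivity
    linarith
  obtain ⟨s, hsneg, hs⟩ := ((hlim.eventually_lt_const hneg).and
    (self_mem_nhdsWithin)).exists
  have hs : 0 < s := hs
  let ψ : R3 → ℝ := fun x => s ^ 2 * b (s • x)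
  have hsc : ContDiff ℝ ∞ (fun x : R3 => s • x) := contDiff_const_smul s
  have hψd : ContDiff ℝ ∞ ψ := contDiff_const.mul (hb.comp hsc)
  have hψs : HasCompactSupport ψ := by
    have : HasCompactSupport (fun x => b (s • x)) := hbs.comp_smul hs.ne'
    exact this.mul_left
  have hψ0 : ∀ x, 0 ≤ ψ x := fun x => mul_nonneg (by positivity) (hb0 _)
  have hsq : ∀ x, ψ x ^ 2 = s ^ 4 * b (s • x) ^ 2 := fun x => by simp only [ψ]; ring
  refine ⟨ψ, hψd, hψs, hψ0, ?_, ?_⟩
  · have h1 : ∫ x, ψ x ^ 2 = s ^ 4 * ((s ^ 3)⁻¹ * ∫ x, b x ^ 2) := by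
      simp only [hsq]
      rw [integral_const_mul, integral_scale s hs (fun x => b x ^ 2)]
    have h2 : 0 < ∫ x, b x ^ 2 := by
      have := hpos 1 one_pos
      simpa using this
    rw [h1]; positivity
  · -- the gradient term
    have hgrad : ∫ x, ‖grad ψ x‖ ^ 2 = s ^ 3 * T := by
      have h1 : ∀ x, ‖grad ψ x‖ ^ 2 = s ^ 6 * ‖fderiv ℝ b (s • x)‖ ^ 2 := by
        intro x
        rw [norm_grad]
        have h2 : HasFDerivAt ψ (s ^ 2 • ((fderiv ℝ b (s • x)).comp
            (s • ContinuousLinearMap.id ℝ R3))) x := by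
          have h3 : HasFDerivAt (fun x : R3 => s • x) (s • ContinuousLinearMap.id ℝ R3) x :=
            (hasFDerivAt_id x).const_smul s
          exact (((hb.differentiable (by simp)) (s • x)).hasFDerivAt.comp x h3).const_mul (s ^ 2)
        rw [h2.fderiv]
        have h4 : s ^ 2 • ((fderiv ℝ b (s • x)).comp (s • ContinuousLinearMap.id ℝ R3))
            = s ^ 3 • fderiv ℝ b (s • x) := by
          ext v
          simp
          ring
        rw [h4, norm_smul, Real.norm_of_nonneg (by positivity)]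
        ring
      simp only [h1]
      rw [integral_const_mul, integral_scale s hs (fun x => ‖fderiv ℝ b x‖ ^ 2), hT]
      field_simp
    have hpow : ∀ q : ℝ, ∫ x, (ψ x ^ 2) ^ q = s ^ (4 * q - 3) * ∫ x, (b x ^ 2) ^ q := by
      intro q
      have h1 : ∀ x, (ψ x ^ 2) ^ q = s ^ (4 * q) * (b (s • x) ^ 2) ^ q := by
        intro x
        rw [hsq, Real.mul_rpow (by positivity) (by positivity)]
        congr 1
        rw [← Real.rpow_natCast s 4, ← Real.rpow_mul hs.le]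
        norm_num
      simp only [h1]
      rw [integral_const_mul, integral_scale s hs (fun x => (b x ^ 2) ^ q), ← mul_assoc]
      congr 1
      rw [Real.rpow_sub hs]
      norm_num
      rw [div_eq_mul_inv]
    have hJ : ∫ x, J γ Ce p (ψ x ^ 2) = γ / p * (s ^ (4 * p - 3) * P)
        - 3 * Ce / 4 * (s ^ ((7:ℝ)/3) * Q) := by
      have hi : ∀ q : ℝ, 0 < q → Integrable (fun x => (ψ x ^ 2) ^ q) := by
        intro q hq
        refine Continuous.integrable_of_hasCompactSupport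
          ((hψd.continuous.pow 2).rpow_const fun x => Or.inr hq.le) ?_
        refine hψs.comp_left (g := fun t : ℝ => (t ^ 2) ^ q) ?_
        rw [zero_pow two_ne_zero, Real.zero_rpow hq.ne']
      have e1 : ∫ x, J γ Ce p (ψ x ^ 2)
          = ∫ x, (γ / p * (ψ x ^ 2) ^ p - 3 * Ce / 4 * (ψ x ^ 2) ^ ((4:ℝ)/3)) := rfl
      rw [e1, integral_sub ((hi p (by linarith)).const_mul _) ((hi _ (by norm_num)).const_mul _),
        integral_const_mul, integral_const_mul, hpow, hpow, hP, hQ]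
      norm_num
    have hDD : ∫ x, ∫ y, ψ x ^ 2 * ψ y ^ 2 / ‖x - y‖ = s ^ 3 * D := by
      have h1 : ∀ x, ∫ y, ψ x ^ 2 * ψ y ^ 2 / ‖x - y‖
          = s ^ 6 * ∫ y, b (s • x) ^ 2 * b y ^ 2 / ‖s • x - y‖ := by
        intro x
        have h2 : ∀ y, ψ x ^ 2 * ψ y ^ 2 / ‖x - y‖
            = s ^ 9 * (b (s • x) ^ 2 * b (s • y) ^ 2 / ‖s • x - s • y‖) := by
          intro y
          rw [hsq, hsq, ← smul_sub, norm_smul, Real.norm_of_nonneg hs.le]
          rcases eq_or_ne (‖x - y‖) 0 with h0 | h0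
          · simp [h0]
          · field_simp
        simp only [h2]
        rw [integral_const_mul,
          integral_scale s hs (fun y => b (s • x) ^ 2 * b y ^ 2 / ‖s • x - y‖)]
        field_simp
      simp only [h1]
      rw [integral_const_mul,
        integral_scale s hs (fun x => ∫ y, b x ^ 2 * b y ^ 2 / ‖x - y‖), hD]
      field_simp
    rw [hgrad, hJ, hDD]
    have hs73 : 0 < s ^ ((7:ℝ)/3) := Real.rpow_pos_of_pos hs _
    have e2 : s ^ 3 = s ^ ((7:ℝ)/3) * s ^ ((2:ℝ)/3) := by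
      rw [← Real.rpow_add hs, ← Real.rpow_natCast s 3]; norm_num
    have e3 : s ^ (4 * p - 3) = s ^ ((7:ℝ)/3) * s ^ (4 * p - 16 / 3) := by
      rw [← Real.rpow_add hs]; congr 1; ring
    rw [e2, e3]
    have := mul_neg_of_pos_of_neg hs73 hsneg
    linarith

/-! ### Lower bounds -/

open Pool.Agent.Helper149.TFDW in
/-- Lower bound of the energy in terms of `X = A∫|∇√ρ|² + ∫J_α(ρ)`. -/
lemma energy_lower {A γ Ce p : ℝ} (hA : 0 < A) (hγ : 0 < γ) (hCe : 0 < Ce) (hp : 4 / 3 < p)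
    {c : ℝ} (hc0 : 0 < c) (hc : ∀ s, 0 ≤ s → c * s ^ 2 ≤ ff A γ Ce p s)
    {k : ℕ} {z : Fin k → ℝ} {R : Fin k → R3} (hz : ∀ j, 0 < z j)
    {ρ : R3 → ℝ} {g : R3 → R3} (h : Pool.Agent.Helper149.TFDW.Admissible p ρ g) :
    (∑ i, ∑ j, (if i < j then z i * z j / ‖R i - R j‖ else 0))
      + (1 - (∑ j, z j) / (2 * c)) * (A * (∫ x, ‖g x‖ ^ 2) + ∫ x, Jalpha γ Ce p (ρ x))
      - alpha γ Ce p * (∫ x, ρ x) ≤ energy A γ Ce p z R ρ g := by
  have hkey := fun a => key hA hγ hCe hp hc0 hc h a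
  have hJα := integrable_Jalpha (γ := γ) (Ce := Ce) hp h.nonneg h.integrable h.integrable_rpow
  have hJ : ∫ x, J γ Ce p (ρ x) = (∫ x, Jalpha γ Ce p (ρ x)) - alpha γ Ce p * ∫ x, ρ x := by
    have e1 : ∫ x, J γ Ce p (ρ x)
        = ∫ x, (γ / p * ρ x ^ p - 3 * Ce / 4 * ρ x ^ ((4:ℝ)/3)) := rfl
    rw [e1, integral_sub (h.integrable_rpow.const_mul _) (hJα.1.const_mul _),
      integral_const_mul, integral_const_mul, hJα.2.2]
    ring
  set X := A * (∫ x, ‖g x‖ ^ 2) + ∫ x, Jalpha γ Ce p (ρ x) with hX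
  have hV : ∫ x, (∑ j, z j / ‖x - R j‖) * ρ x = ∑ j, z j * ∫ x, ρ x / ‖x - R j‖ := by
    have h1 : ∀ x, (∑ j, z j / ‖x - R j‖) * ρ x = ∑ j, z j * (ρ x / ‖x - R j‖) := by
      intro x
      rw [Finset.sum_mul]
      refine Finset.sum_congr rfl fun j _ => ?_
      ring
    simp only [h1]
    rw [integral_finsetSum _ fun j _ => (hkey (R j)).1.const_mul _]
    simp only [integral_const_mul]
  have hVle : ∑ j, z j * ∫ x, ρ x / ‖x - R j‖ ≤ (∑ j, z j) / (2 * c) * X := by
    calc ∑ j, z j * ∫ x, ρ x / ‖x - R j‖ ≤ ∑ j, z j * (X / (2 * c)) := by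
          refine Finset.sum_le_sum fun j _ => mul_le_mul_of_nonneg_left ?_ (hz j).le
          rw [le_div_iff₀ (by positivity)]
          linarith [(hkey (R j)).2]
      _ = (∑ j, z j) / (2 * c) * X := by rw [← Finset.sum_mul]; ring
  have hD : 0 ≤ ∫ x, ∫ y, ρ x * ρ y / ‖x - y‖ :=
    integral_nonneg fun x => integral_nonneg fun y =>
      div_nonneg (mul_nonneg (h.nonneg x) (h.nonneg y)) (norm_nonneg _)
  unfold energy
  rw [hV, hJ]
  nlinarith

/-- **Disproof of Q1.** For all constants `A, γ, C_e > 0` and `p > 4/3` there is `Z₀ > 0` such that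
for every system of nuclei of total charge at most `Z₀` the TFDW energy `E` is not convex on
`[0, ∞)` (and `E(lam)` is a genuine finite infimum for every `lam ≥ 0`). -/
theorem result :
    ∀ (A γ Ce p : ℝ), 0 < A → 0 < γ → 0 < Ce → 4 / 3 < p →
      ∃ Z₀ : ℝ, 0 < Z₀ ∧
        ∀ (k : ℕ), 1 ≤ k → ∀ (z : Fin k → ℝ) (R : Fin k → EuclideanSpace ℝ (Fin 3)),
          (∀ j, 0 < z j) → Function.Injective R → ∑ j, z j ≤ Z₀ →
          (∀ lam : ℝ, 0 ≤ lam → (energySet A γ Ce p z R lam).Nonempty ∧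
            BddBelow (energySet A γ Ce p z R lam)) ∧
          ¬ ConvexOn ℝ (Set.Ici 0) (E A γ Ce p z R) := by
  intro A γ Ce p hA hγ hCe hp
  obtain ⟨c, hc0, hc⟩ := Pool.Agent.Helper149.TFDW.ff_lower hA hγ hCe hp
  have hα := Pool.Agent.Helper149.TFDW.alpha_pos hγ hCe hp
  set α := Pool.Agent.Helper149.TFDW.alpha γ Ce p with hαdef
  obtain ⟨ψ, hψd, hψs, hψ0, hM, hneg⟩ := exists_trial (A := A) (γ := γ) hCe hp
  set M := ∫ x, ψ x ^ 2 with hMdef
  set E₀ := A * (∫ x, ‖grad ψ x‖ ^ 2) + (∫ x, J γ Ce p (ψ x ^ 2))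
        + 1 / 2 * (∫ x, ∫ y, ψ x ^ 2 * ψ y ^ 2 / ‖x - y‖) with hE₀
  set κ : ℝ := -E₀ / M with hκ
  have hκ0 : 0 < κ := div_pos (by linarith) hM
  set θ : ℝ := κ / (8 * α) with hθ
  have hθ0 : 0 < θ := by positivity
  have hC₁ : 0 < (1 + θ) / α := by positivity
  obtain ⟨C₂, hC₂, hC⟩ := Pool.Agent.Helper149.TFDW.smooth_mass hA hγ hCe hp hC₁ (by
    rw [← hαdef]
    exact div_lt_div_of_pos_right (by linarith) hα)
  refine ⟨min c (c * κ / (2 * α)), lt_min hc0 (by positivity), ?_⟩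
  intro k hk z R hz hR hZ
  have hZc : ∑ j, z j ≤ c := hZ.trans (min_le_left _ _)
  have hZκ : ∑ j, z j ≤ c * κ / (2 * α) := hZ.trans (min_le_right _ _)
  have hZ0 : 0 ≤ ∑ j, z j := Finset.sum_nonneg fun j _ => (hz j).le
  set Z := ∑ j, z j with hZdef
  set U : ℝ := ∑ i, ∑ j, (if i < j then z i * z j / ‖R i - R j‖ else 0) with hU
  have hζ : Z / (2 * c) ≤ κ / (4 * α) := by
    rw [div_le_div_iff₀ (by positivity) (by positivity)]
    have := mul_le_mul_of_nonneg_right hZκ (by positivity : 0 ≤ 4 * α)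
    calc Z * (4 * α) ≤ c * κ / (2 * α) * (4 * α) := this
      _ = κ * (2 * c) := by field_simp; ring
  have hζ2 : Z / (2 * c) ≤ 1 / 2 := by
    rw [div_le_div_iff₀ (by positivity) (by norm_num)]
    linarith
  have hζ0 : 0 ≤ Z / (2 * c) := by positivity
  have hX0 : ∀ ρ g, Pool.Agent.Helper149.TFDW.Admissible p ρ g →
      0 ≤ A * (∫ x, ‖g x‖ ^ 2) + ∫ x, Pool.Agent.Helper149.TFDW.Jalpha γ Ce p (ρ x) := by
    intro ρ g h
    have h1 : 0 ≤ ∫ x, ‖g x‖ ^ 2 := integral_nonneg fun x => by positivity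
    have h2 : 0 ≤ ∫ x, Pool.Agent.Helper149.TFDW.Jalpha γ Ce p (ρ x) :=
      integral_nonneg fun x => Pool.Agent.Helper149.TFDW.Jalpha_nonneg hγ hCe hp (h.nonneg x)
    positivity
  have hadm : ∀ {ρ : R3 → ℝ} {g : R3 → R3}, Admissible p ρ g → Integrable ρ →
      Pool.Agent.Helper149.TFDW.Admissible p ρ g := fun {ρ g} h hi =>
    ⟨h.nonneg, hi, h.integrable_rpow, h.grad_memLp, h.grad_weak⟩
  -- crude lower bound
  have hbdd : ∀ lam : ℝ, BddBelow (energySet A γ Ce p z R lam) := by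
    intro lam
    refine ⟨U - α * lam, ?_⟩
    rintro e ⟨ρ, g, h, hi, hm, rfl⟩
    have h1 := energy_lower hA hγ hCe hp hc0 hc (R := R) hz (hadm h hi)
    have h2 := hX0 ρ g (hadm h hi)
    rw [hm] at h1
    have h3 : 0 ≤ (1 - Z / (2 * c)) * (A * (∫ x, ‖g x‖ ^ 2)
      + ∫ x, Pool.Agent.Helper149.TFDW.Jalpha γ Ce p (ρ x)) :=
      mul_nonneg (by linarith) h2
    linarith
  -- the sets are nonempty
  have hne : ∀ lam : ℝ, 0 ≤ lam → (energySet A γ Ce p z R lam).Nonempty := by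
    intro lam hlam
    let φ : R3 → ℝ := fun x => √(lam / M) * ψ x
    have h1 := trial_admissible hp (ψ := φ) (contDiff_const.mul hψd) hψs.mul_left
      (fun x => mul_nonneg (Real.sqrt_nonneg _) (hψ0 x))
    refine ⟨_, _, _, h1.1, h1.2, ?_, rfl⟩
    have h2 : ∀ x, φ x ^ 2 = lam / M * ψ x ^ 2 := by
      intro x
      simp only [φ]
      rw [mul_pow, Real.sq_sqrt (by positivity)]
    simp only [h2]
    rw [integral_const_mul, ← hMdef]
    field_simp
  refine ⟨fun lam hlam => ⟨hne lam hlam, hbdd lam⟩, ?_⟩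
  -- value at zero
  have hE0 : E A γ Ce p z R 0 ≤ U := by
    refine csInf_le (hbdd 0) ⟨fun _ => 0, fun _ => 0, ⟨fun _ => le_rfl, ?_, ?_, MemLp.zero, ?_⟩,
      integrable_zero _ _ _, by simp, ?_⟩
    · simp
    · have : (fun _ : R3 => (0:ℝ) ^ p) = fun _ => 0 := by
        funext; exact Real.zero_rpow (by linarith)
      rw [this]; exact integrable_zero _ _ _
    · intro φ _ _ v; simp
    · have hJ0 : J γ Ce p 0 = 0 := by
        unfold J
        rw [Real.zero_rpow (by linarith : p ≠ 0), Real.zero_rpow (by norm_num : (4:ℝ)/3 ≠ 0)]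
        ring
      unfold energy
      simp [hJ0, hU]
  -- value at `M`
  have hEM : E A γ Ce p z R M ≤ U + E₀ := by
    have h1 := trial_admissible hp hψd hψs hψ0
    have h2 : energy A γ Ce p z R (fun x => ψ x ^ 2) (grad ψ) ≤ U + E₀ := by
      unfold energy
      have h3 : 0 ≤ ∫ x, (∑ j, z j / ‖x - R j‖) * ψ x ^ 2 :=
        integral_nonneg fun x => mul_nonneg
          (Finset.sum_nonneg fun j _ => div_nonneg (hz j).le (norm_nonneg _)) (by positivity)
      rw [hE₀]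
      linarith
    exact (csInf_le (hbdd M) ⟨_, _, h1.1, h1.2, rfl, rfl⟩).trans h2
  -- lower bound for small mass
  set δ : ℝ := (θ / (α * (C₂ + 1))) ^ 2 with hδ
  have hδ0 : 0 < δ := by positivity
  set lam : ℝ := min (M / 2) (δ / α) with hlam
  have hlam0 : 0 < lam := lt_min (by positivity) (by positivity)
  have hlamM : lam ≤ M / 2 := min_le_left _ _
  have hlamδ : lam ≤ δ / α := min_le_right _ _
  have hElam : U - κ / 2 * lam ≤ E A γ Ce p z R lam := by
    refine le_csInf (hne lam hlam0.le) ?_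
    rintro e ⟨ρ, g, h, hi, hm, rfl⟩
    have h1 := energy_lower hA hγ hCe hp hc0 hc (R := R) hz (hadm h hi)
    have h2 := hX0 ρ g (hadm h hi)
    have h3 := Pool.Agent.Helper149.TFDW.mass_bound hA hγ hCe hp hC₁ hC₂ hC (hadm h hi)
    rw [hm] at h1 h3
    set X := A * (∫ x, ‖g x‖ ^ 2) + ∫ x, Pool.Agent.Helper149.TFDW.Jalpha γ Ce p (ρ x) with hX
    have hXlam : α * lam ≤ (1 + 2 * θ) * X := by
      rcases le_total X δ with h5 | h5
      · have h6 : C₂ * X ^ ((3:ℝ)/2) ≤ θ / α * X := by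
          have e1 : X ^ ((3:ℝ)/2) = X * √X := by
            rw [Real.sqrt_eq_rpow, ← Real.rpow_one_add' h2 (by norm_num)]
            norm_num
          have e2 : √X ≤ θ / (α * (C₂ + 1)) := by
            have := Real.sqrt_le_sqrt h5
            rwa [hδ, Real.sqrt_sq (by positivity)] at this
          have e3 : C₂ * √X ≤ θ / α := by
            calc C₂ * √X ≤ (C₂ + 1) * (θ / (α * (C₂ + 1))) :=
                  mul_le_mul (by linarith) e2 (Real.sqrt_nonneg _) (by positivity)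
              _ = θ / α := by field_simp
          rw [e1]
          calc C₂ * (X * √X) = (C₂ * √X) * X := by ring
            _ ≤ _ := mul_le_mul_of_nonneg_right e3 h2
        have h7 : lam ≤ (1 + 2 * θ) / α * X := by
          calc lam ≤ (1 + θ) / α * X + θ / α * X := by linarith
            _ = (1 + 2 * θ) / α * X := by ring
        calc α * lam ≤ α * ((1 + 2 * θ) / α * X) := mul_le_mul_of_nonneg_left h7 hα.le
          _ = (1 + 2 * θ) * X := by field_simp
      · have h6 : α * lam ≤ δ := by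
          have := mul_le_mul_of_nonneg_left hlamδ hα.le
          rwa [mul_div_cancel₀ _ hα.ne'] at this
        nlinarith
    have h8 : (1 - Z / (2 * c)) * X - α * lam ≥ - (κ / 2 * lam) := by
      have h9 : α * lam / (1 + 2 * θ) ≤ X := by
        rw [div_le_iff₀ (by positivity)]; linarith
      have h10 : (1 - Z / (2 * c)) * (α * lam / (1 + 2 * θ)) ≤ (1 - Z / (2 * c)) * X :=
        mul_le_mul_of_nonneg_left h9 (by linarith)
      have h11 : α * lam * (1 - 2 * θ) ≤ α * lam / (1 + 2 * θ) := by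
        rw [le_div_iff₀ (by positivity)]
        have : α * lam * (1 - 2 * θ) * (1 + 2 * θ) = α * lam * (1 - 4 * θ ^ 2) := by ring
        rw [this]
        have h12 : 0 < α * lam := by positivity
        nlinarith [sq_nonneg θ]
      have h12 : (1 - Z / (2 * c)) * (α * lam * (1 - 2 * θ))
          ≤ (1 - Z / (2 * c)) * (α * lam / (1 + 2 * θ)) :=
        mul_le_mul_of_nonneg_left h11 (by linarith)
      have h13 : α * θ = κ / 8 := by rw [hθ]; field_simp
      have h14 : α * (Z / (2 * c)) ≤ κ / 4 := by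
        calc α * (Z / (2 * c)) ≤ α * (κ / (4 * α)) := mul_le_mul_of_nonneg_left hζ hα.le
          _ = κ / 4 := by field_simp
      have h15 : (1 - Z / (2 * c)) * (α * lam * (1 - 2 * θ)) - α * lam
          = -(lam * (2 * (α * θ) + α * (Z / (2 * c)))) + 2 * (Z / (2 * c)) * θ * (α * lam) := by
        ring
      have h16 : 0 ≤ 2 * (Z / (2 * c)) * θ * (α * lam) := by positivity
      have h17 : lam * (2 * (α * θ) + α * (Z / (2 * c))) ≤ lam * (κ / 2) := by
        refine mul_le_mul_of_nonneg_left ?_ hlam0.le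
        rw [h13]; linarith
      linarith
    linarith
  -- conclusion
  intro hconv
  have hMne : M ≠ 0 := hM.ne'
  have ht0 : 0 ≤ lam / M := by positivity
  have ht1 : lam / M ≤ 1 := by
    rw [div_le_one hM]; linarith
  have h1 := hconv.2 (Set.mem_Ici.mpr le_rfl : (0:ℝ) ∈ Set.Ici 0)
    (Set.mem_Ici.mpr hM.le : M ∈ Set.Ici (0:ℝ)) (by linarith : (0:ℝ) ≤ 1 - lam / M) ht0 (by ring)
  have h2 : (1 - lam / M) • (0:ℝ) + (lam / M) • M = lam := by
    simp only [smul_eq_mul]; field_simp; ring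
  rw [h2] at h1
  simp only [smul_eq_mul] at h1
  have h3 : (1 - lam / M) * E A γ Ce p z R 0 ≤ (1 - lam / M) * U :=
    mul_le_mul_of_nonneg_left hE0 (by linarith)
  have h4 : lam / M * E A γ Ce p z R M ≤ lam / M * (U + E₀) :=
    mul_le_mul_of_nonneg_left hEM ht0
  have h5 : lam / M * E₀ = -(κ * lam) := by
    rw [hκ]; field_simp
  nlinarith

end Pool.Agent.Results.MP_a69704_mp.NotConvex
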